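import Pool.Agent.Helper17.OD.GoalsCV

/-!
# HUL: the hull and its collapse (3.3)

Used: `G_MAPT.{2,2}`, `G_CON1`, `G_COL`.
-/

namespace Pool.Agent.Helper17.OD.PkHUL

open Set

theorem le_of_mono {b : O} {f : O → O} (hf : StrictMonoOn f (Iio b)) : ∀ x < b, x ≤ f x := by
  intro x
  induction x using WellFoundedLT.induction with
  | ind x ih =>
    intro hx
    by_contra hlt
    rw [not_le] at hlt
    exact absurd (ih (f x) hlt (hlt.trans hx)) (not_le.2 (hf (hlt.trans hx) hx hlt))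

theorem ofCode_mem (A : Set O) : ∀ c : Code, (Tr.ofCode c : T) ∈ D A := by
  intro c
  induction c with
  | nat n => exact nat_mem n A
  | ord a => exact a.elim
  | pr s t h1 h2 => exact pr_mem.2 ⟨h1, h2⟩

theorem bound {k : O} (hk : Order.IsSuccLimit k) (hk0 : 0 < k) : ∀ t ∈ D (Iio k), ∃ b < k,
    t ∈ D (Iio b) := by
  intro t ht
  induction t with
  | nat n => exact ⟨0, hk0, nat_mem _ _⟩
  | ord b => exact ⟨Order.succ b, hk.succ_lt (ord_mem.1 ht), ord_mem.2 (Order.lt_succ b)⟩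
  | pr s r ih1 ih2 =>
    obtain ⟨h1, h2⟩ := pr_mem.1 ht
    obtain ⟨a, ha, hs⟩ := ih1 h1
    obtain ⟨b, hb, hr⟩ := ih2 h2
    exact ⟨max a b, max_lt ha hb, pr_mem.2 ⟨D_mono (Iio_subset_Iio (le_max_left _ _)) hs,
      D_mono (Iio_subset_Iio (le_max_right _ _)) hr⟩⟩

theorem thm (hMAPT : G_MAPT.{2, 2}) (hCON1 : G_CON1) (hCOL : G_COL) : G_HUL := by
  intro k w τ S S' c val hC hM hV
  let A : Set O := {x | ∃ a ∈ D (Iio w), val a = .ord x}
  have hnat : ∀ n : ℕ, (Tr.nat n : T) ∈ D (Iio w) := fun n => nat_mem n _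
  have hA1 : ∀ t : T, (∃ a ∈ D (Iio w), val a = t) → t ∈ D A := by
    intro t
    induction t with
    | nat n => intro _; exact nat_mem _ _
    | ord x =>
      rintro ⟨a, ha, hax⟩
      exact ord_mem.2 ⟨a, ha, hax⟩
    | pr s r ih1 ih2 =>
      rintro ⟨a, ha, hax⟩
      refine pr_mem.2 ⟨ih1 ⟨.pr (.nat 2) a, pr_mem.2 ⟨hnat _, ha⟩, ?_⟩,
        ih2 ⟨.pr (.nat 3) a, pr_mem.2 ⟨hnat _, ha⟩, ?_⟩⟩
      · rw [hV.vfst a ha, hax]
        rfl
      · rw [hV.vsnd a ha, hax]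
        rfl
  have hA2 : ∀ t ∈ D A, ∃ a ∈ D (Iio w), val a = t := by
    intro t
    induction t with
    | nat n => intro _; exact ⟨.nat n, hnat n, hV.nat n⟩
    | ord x =>
      intro ht
      exact ord_mem.1 ht
    | pr s r ih1 ih2 =>
      intro ht
      obtain ⟨h1, h2⟩ := pr_mem.1 ht
      obtain ⟨a, ha, hax⟩ := ih1 h1
      obtain ⟨b, hb, hbx⟩ := ih2 h2
      refine ⟨.pr (.nat 1) (.pr a b), pr_mem.2 ⟨hnat _, pr_mem.2 ⟨ha, hb⟩⟩, ?_⟩
      rw [hV.vpr a ha b hb, hax, hbx]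
  have hAw : ∀ x < w, x ∈ A := fun x hx => ⟨.ord x, ord_mem.2 hx, hV.ord x hx⟩
  have hAτ : A ⊆ Iio τ := by
    rintro x ⟨a, ha, hax⟩
    have h1 := hV.bd a ha
    rw [hax] at h1
    exact ord_mem.1 h1
  have hAu : ∀ x < τ, ∃ y ∈ A, x ≤ y := by
    intro x hx
    obtain ⟨a, ha, y, hay, hxy⟩ := hM.unb x hx
    exact ⟨y, ⟨.pr (.nat 0) a, pr_mem.2 ⟨hnat _, ha⟩, (hV.vc a ha).trans hay⟩, hxy⟩
  have hAi : ∀ g ∈ A, ∀ e ∈ D A, e ∈ D (Iio g) → ∀ (ψ : Code) (x : T), IsW g ψ e x → x ∈ D A := by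
    intro g hg e he heg ψ x hx
    obtain ⟨a, ha, hag⟩ := hg
    obtain ⟨b, hb, rfl⟩ := hA2 e he
    exact hA1 x ⟨_, pr_mem.2 ⟨hnat _, pr_mem.2 ⟨ofCode_mem _ ψ, pr_mem.2 ⟨ha, hb⟩⟩⟩,
      hV.vwit a ha b hb ψ g x hag heg hx⟩
  obtain ⟨β, π, hβτ, hπ, hπA⟩ := hCOL τ A hAτ
  have hle := le_of_mono hπ
  have hπm : ∀ x < β, π x ∈ A := fun x hx => by
    rw [← hπA]
    exact ⟨x, hx, rfl⟩
  have hidw : ∀ x < w, x < β ∧ π x = x := by
    intro x
    induction x using WellFoundedLT.induction with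
    | ind x ih =>
      intro hx
      have h1 := hAw x hx
      rw [← hπA] at h1
      obtain ⟨y, hy, hyx⟩ := h1
      have h2 : y ≤ x := by
        rw [← hyx]
        exact hle y hy
      rcases h2.lt_or_eq with h3 | h3
      · have h4 := (ih y h3 (h3.trans hx)).2
        rw [hyx] at h4
        exact absurd h4 (ne_of_gt h3)
      · subst h3
        exact ⟨hy, hyx⟩
  have hwβ : w < β := by
    have h1 : w ≤ β := by
      by_contra hlt
      rw [not_le] at hlt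
      exact absurd (hidw β hlt).1 (lt_irrefl _)
    refine lt_of_le_of_ne h1 ?_
    rintro rfl
    obtain ⟨y, hy, hwy⟩ := hAu w hM.tw
    rw [← hπA] at hy
    obtain ⟨z, hz, hzy⟩ := hy
    have h2 := (hidw z hz).2
    rw [hzy] at h2
    rw [h2] at hwy
    exact absurd hz (not_lt.2 hwy)
  have hβ0 : 0 < β := lt_of_le_of_lt bot_le hwβ
  have hunb : ∀ y < τ, ∃ x < β, y ≤ π x := by
    intro y hy
    obtain ⟨z, hz, hyz⟩ := hAu y hy
    rw [← hπA] at hz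
    obtain ⟨x, hx, rfl⟩ := hz
    exact ⟨x, hx, hyz⟩
  have hβl : Order.IsSuccLimit β := by
    rw [Order.isSuccLimit_iff]
    refine ⟨?_, ?_⟩
    · intro hmin
      exact absurd (hmin.eq_bot) (ne_of_gt hβ0)
    · intro x hx
      have hxβ : x < β := hx.lt
      have h1 : π x < τ := hAτ (hπm x hxβ)
      obtain ⟨z, hz, hxz⟩ := hunb _ (hM.tlim.succ_lt h1)
      have h2 : z ≤ x := by
        have h3 : β = Order.succ x := (Order.succ_eq_of_covBy hx).symm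
        rw [h3] at hz
        exact Order.lt_succ_iff.1 hz
      have h3 : π z ≤ π x := hπ.monotoneOn hz hxβ h2
      exact absurd ((Order.succ_le_iff.1 hxz).trans_le h3) (lt_irrefl _)
  obtain ⟨m1, m2, m3, m4, m5, m6, m7, m8, m9, m10⟩ := hMAPT O O π (Iio β) hπ
  have hmap : ∀ t ∈ D (Iio β), t.map π ∈ D A := by
    intro t ht
    have h1 := m10 (Iio β) t ht
    rw [hπA] at h1
    exact h1
  have hmap2 : ∀ b < β, ∀ e ∈ D (Iio b), e.map π ∈ D (Iio (π b)) := by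
    intro b hb e he
    refine D_mono ?_ (m10 (Iio b) e he)
    rintro _ ⟨x, hx, rfl⟩
    exact hπ (lt_trans hx hb) hb hx
  have hsub : ∀ b < β, ∀ e ∈ D (Iio b), e ∈ D (Iio β) := fun b hb e he =>
    D_mono (Iio_subset_Iio hb.le) he
  have hcl : ∀ b < β, ∀ e ∈ D (Iio b), ∀ (φ : Code) (y : T), IsW (π b) φ (e.map π) y →
      y ∈ D (π '' Iio β) := by
    intro b hb e he φ y hy
    rw [hπA]
    exact hAi (π b) (hπm b hb) _ (hmap e (hsub b hb e he)) (hmap2 b hb e he) φ y hy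
  obtain ⟨c1, c2⟩ := hCON1 β π hπ hcl
  refine ⟨β, π, hπ, fun x hx => hAτ (hπm x hx), hwβ, fun x hx => (hidw x hx).2, hβl, hunb, ?_, ?_,
    c1, ?_, ?_⟩
  · intro t ht
    exact hA2 _ (hmap t ht)
  · intro a ha
    have h1 := hA1 _ ⟨a, ha, rfl⟩
    rw [← hπA, m9] at h1
    obtain ⟨t, ht, hta⟩ := h1
    exact ⟨t, ht, hta.symm⟩
  · intro b hb e he φ y hy
    have h1 := hcl b hb e he φ y hy
    rw [m9] at h1
    obtain ⟨x, hx, rfl⟩ := h1
    have h2 := (c2 b hb e he x hx φ).2 hy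
    exact ⟨x, h2.1, rfl, h2⟩
  · rintro P ⟨cP, hP⟩ e he
    obtain ⟨b, hb, heb⟩ := bound hβl hβ0 e he
    exact (hP b e heb).symm.trans ((c1 b hb e heb cP).trans (hP (π b) _ (hmap2 b hb e heb)))

end Pool.Agent.Helper17.OD.PkHUL
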