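import Pool.Agent.Helper17.OD.GoalsCV
import Pool.Agent.Helper27.OD.HUL

/-!
# CFI: the final step of the covering theorem (3.11)

Used: `G_HCN`, `G_ENU`.
-/

namespace Pool.Agent.Helper17.OD.PkCFI

open Set

variable {k : O} {S S' : Set (Set T)}

theorem Dmem [h : SOM k S S'] {d : O} (hd : d < k) : D (Iio d) ∈ S' := by
  have h1 := SOM.sep (k := k) (S := S) (S' := S') (P := fun _ => True) SD.const hd
  simpa using h1

/-- increasing enumerations are unique -/
theorem uniq {b c : O} {f g : O → O} (hf : StrictMonoOn f (Iio b)) (hg : StrictMonoOn g (Iio c))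
    (h : f '' Iio b = g '' Iio c) : ∀ x < b, x < c ∧ f x = g x := by
  intro x
  induction x using WellFoundedLT.induction with
  | ind x ih =>
    intro hx
    have h1 : f x ∈ g '' Iio c := by
      rw [← h]
      exact ⟨x, hx, rfl⟩
    obtain ⟨z, hz, hzx⟩ := h1
    have h2 : x ≤ z := by
      by_contra hlt
      rw [not_le] at hlt
      have h3 := (ih z hlt (hlt.trans hx)).2
      have h4 := hf (hlt.trans hx) hx hlt
      rw [h3, hzx] at h4
      exact lt_irrefl _ h4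
    have hxc : x < c := lt_of_le_of_lt h2 hz
    refine ⟨hxc, le_antisymm ?_ ?_⟩
    · have h5 : g x ∈ f '' Iio b := by
        rw [h]
        exact ⟨x, hxc, rfl⟩
      obtain ⟨y, hy, hyx⟩ := h5
      have h6 : x ≤ y := by
        by_contra hlt
        rw [not_le] at hlt
        have h3 := (ih y hlt (hlt.trans hx)).2
        have h4 := hg (hlt.trans hxc) hxc hlt
        rw [← h3, hyx] at h4
        exact lt_irrefl _ h4
      rw [← hyx]
      exact hf.monotoneOn hx hy h6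
    · rw [← hzx]
      exact hg.monotoneOn hxc hz h2

theorem leaves_sd [h : SOM k S S'] (t : T) (ht : t ∈ D (Iio k)) :
    SD k S S' (fun e _ => ∃ x ∈ t.leaves, e = .ord x) := by
  induction t with
  | nat n => exact (SD.const (p := False)).congr fun e _ _ _ => by simp [Tr.leaves]
  | ord a =>
    exact (SD.eq ST.id (ST.ordc (ord_mem.1 ht))).congr fun e _ _ _ => by simp [Tr.leaves]
  | pr s r ih1 ih2 =>
    refine ((ih1 (pr_mem.1 ht).1).or (ih2 (pr_mem.1 ht).2)).congr fun e _ _ _ => ?_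
    constructor
    · rintro (⟨x, hx, hex⟩ | ⟨x, hx, hex⟩)
      · exact ⟨x, Or.inl hx, hex⟩
      · exact ⟨x, Or.inr hx, hex⟩
    · rintro ⟨x, hx | hx, hex⟩
      · exact Or.inl ⟨x, hx, hex⟩
      · exact Or.inr ⟨x, hx, hex⟩

theorem thm (hHCN : G_HCN) (hENU : G_ENU) : G_CFI := by
  rintro k w τ β S S' c val π d₀ l q ph hC hM hV hH ⟨e, he1, he2, he3⟩ hrs hd₀ hl hq hph hcl
  have hsom : SOM k (Con k) (Con k) := hC.con
  have hk0 : 0 < k := lt_of_le_of_lt bot_le hM.tk
  have hG := hrs d₀ hd₀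
  obtain ⟨b, hb, hphb⟩ := PkHUL.bound hsom.lim hk0 ph hph
  -- the base set
  have hB : {t : T | (∃ x < d₀, t = .ord (π x)) ∨ ∃ x ∈ ph.leaves, t = .ord x} ∈ Con k := by
    refine SOM.of_SD (S := Con k) (S' := Con k) (max_lt hb hM.tk) ?_ ?_
    · rintro _ (⟨x, hx, rfl⟩ | ⟨x, hx, rfl⟩)
      · exact ord_mem.2 (lt_of_lt_of_le (hH.lt x (hx.trans hd₀)) (le_max_right _ _))
      · have hxb : x < b := hphb hx
        exact ord_mem.2 (lt_of_lt_of_le hxb (le_max_left _ _))
    · have key : SD k (Con k) (Con k) (fun e _ => ∃ u ∈ D (Iio k), Tr.pr u e ∈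
          {p : T | ∃ x < d₀, p = .pr (.ord x) (.ord (π x))}) := by
        apply_rules [SD.exT, SD.allT, SD.mem, ST.id, ST.fst, ST.snd, ST.pr, SV.par]
      refine (key.or (leaves_sd ph hph)).congr fun e he _ _ => or_congr ?_ Iff.rfl
      constructor
      · rintro ⟨u, hu, x, hx, hxe⟩
        injection hxe with h1 h2
        exact ⟨x, hx, h2⟩
      · rintro ⟨x, hx, rfl⟩
        refine ⟨.ord x, ord_mem.2 ?_, x, hx, rfl⟩
        exact lt_of_le_of_lt (PkHUL.le_of_mono hH.mono x (hx.trans hd₀))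
          ((hH.lt x (hx.trans hd₀)).trans hM.tk)
  have hBe : {x : O | Tr.ord x ∈ {t : T | (∃ x < d₀, t = .ord (π x)) ∨
      ∃ x ∈ ph.leaves, t = .ord x}} = π '' Iio d₀ ∪ ph.leaves := by
    ext y
    constructor
    · rintro (⟨x, hx, hxe⟩ | ⟨x, hx, hxe⟩)
      · injection hxe with h1
        exact Or.inl ⟨x, hx, h1.symm⟩
      · injection hxe with h1
        rw [h1]
        exact Or.inr hx
    · rintro (⟨x, hx, rfl⟩ | hy)
      · exact Or.inl ⟨x, hx, rfl⟩
      · exact Or.inr ⟨y, hy, rfl⟩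
  have hT := hHCN k (Con k) (Con k) hsom l hl q hq _ hB
  rw [hBe] at hT
  have hD := Dmem (S := Con k) (S' := Con k) hM.tk
  have hA : {t : T | ∃ x < β, t = .ord (π x)} ∈ Con k := by
    refine SOM.of_SD (S := Con k) (S' := Con k) hM.tk ?_ ?_
    · rintro _ ⟨x, hx, rfl⟩
      exact ord_mem.2 (hH.lt x hx)
    · have key : SD k (Con k) (Con k) (fun e _ => e.IsOrd ∧ e ∈ D (Iio τ) ∧ e ∈
          {t | TCl l (av q) (π '' Iio d₀ ∪ ph.leaves) t}) := by
        apply_rules [SD.and, SD.isOrd, SD.exT, SD.allT, SD.mem, ST.id, ST.fst, ST.snd, ST.pr, SV.par]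
      refine key.congr fun e he _ _ => ?_
      constructor
      · rintro ⟨h1, h2, h3⟩
        cases e with
        | nat n => exact absurd h1 (by simp [Tr.IsOrd])
        | pr s t => exact absurd h1 (by simp [Tr.IsOrd])
        | ord y =>
          obtain ⟨x, hx, hxy⟩ := (hcl y (ord_mem.1 h2)).1 h3
          exact ⟨x, hx, by rw [hxy]⟩
      · rintro ⟨x, hx, rfl⟩
        exact ⟨trivial, ord_mem.2 (hH.lt x hx), (hcl _ (hH.lt x hx)).2 ⟨x, hx, rfl⟩⟩
  obtain ⟨b', f, hb', hf, hfY, hfM⟩ := hENU k (Con k) (Con k) hsom _ hA (by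
    rintro _ ⟨x, _, rfl⟩
    trivial)
  have himg : f '' Iio b' = π '' Iio β := by
    ext y
    constructor
    · rintro ⟨a, ha, rfl⟩
      obtain ⟨x, hx, hxe⟩ := (hfY (.ord (f a))).2 ⟨a, ha, rfl⟩
      injection hxe with h1
      exact ⟨x, hx, h1.symm⟩
    · rintro ⟨x, hx, rfl⟩
      obtain ⟨a, ha, hae⟩ := (hfY (.ord (π x))).1 ⟨x, hx, rfl⟩
      injection hae with h1
      exact ⟨a, ha, h1.symm⟩
  have hu1 := uniq hf hH.mono himg
  have hu2 := uniq hH.mono hf himg.symm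
  -- the graph of `c` is constructible
  refine hM.cn (SOM.of_SD (S := Con k) (S' := Con k) (max_lt hC.wk hM.tk) ?_ ?_)
  · rintro _ ⟨a, ha, rfl⟩
    exact pr_mem.2 ⟨D_mono (Iio_subset_Iio (le_max_left _ _)) ha,
      D_mono (Iio_subset_Iio (le_max_right _ _)) (hM.cf a ha).2⟩
  · have hDw := Dmem (S := Con k) (S' := Con k) hC.wk
    have key : SD k (Con k) (Con k) (fun p _ => p = .pr p.fst p.snd ∧ p.fst ∈ D (Iio w) ∧
        ∃ u ∈ D (Iio k), Tr.pr (.pr (.nat 0) p.fst) u ∈ gr (D (Iio w)) e ∧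
          Tr.pr u p.snd ∈ {p : T | ∃ a < b', p = .pr (.ord a) (.ord (f a))}) := by
      apply_rules [SD.and, SD.eq, SD.isOrd, SD.exT, SD.allT, SD.mem, ST.id, ST.fst, ST.snd, ST.pr,
        ST.nat, SV.par]
    refine key.congr fun p hp _ _ => ?_
    have hc : ∀ a ∈ D (Iio w), ∃ x < β, c a = .ord (π x) ∧ e (.pr (.nat 0) a) = .ord x := by
      intro a ha
      have ha' : Tr.pr (.nat 0) a ∈ D (Iio w) := pr_mem.2 ⟨nat_mem _ _, ha⟩
      obtain ⟨t, ht, hta⟩ := hH.tr2 _ ha'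
      have h1 := hV.vc a ha
      have h2 := (hM.cf a ha).1
      rw [← h1, hta] at h2
      cases t with
      | nat n => exact absurd h2 (by simp [Tr.map, Tr.IsOrd])
      | pr s t => exact absurd h2 (by simp [Tr.map, Tr.IsOrd])
      | ord x =>
        refine ⟨x, ord_mem.1 ht, ?_, he2 _ ha' x (ord_mem.1 ht) hta⟩
        rw [← h1, hta]
        rfl
    constructor
    · rintro ⟨h1, h2, u, hu, ⟨a, ha, hae⟩, x, hx, hxe⟩
      injection hae with h3 h4
      injection hxe with h5 h6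
      obtain ⟨y, hy, hcy, hey⟩ := hc p.fst h2
      refine ⟨p.fst, h2, ?_⟩
      rw [← h3, hey, h5] at h4
      injection h4 with h7
      rw [hcy, ← h7, ← (hu1 x hx).2, ← h6]
      exact h1
    · rintro ⟨a, ha, rfl⟩
      obtain ⟨y, hy, hcy, hey⟩ := hc a ha
      refine ⟨rfl, ha, .ord y, ord_mem.2 ?_, ⟨.pr (.nat 0) a, pr_mem.2 ⟨nat_mem _ _, ha⟩, ?_⟩,
        y, (hu2 y hy).1, ?_⟩
      · exact lt_of_le_of_lt (PkHUL.le_of_mono hH.mono y hy) ((hH.lt y hy).trans hM.tk)
      · rw [hey]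
        rfl
      · rw [← (hu2 y hy).2, ← hcy]
        rfl

end Pool.Agent.Helper17.OD.PkCFI
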