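import Pool.Agent.Helper17.OD.GoalsSO

/-!
# MPR: the relation `MapR f` is SD in the parameter `f`

`MapR f t t'` holds iff some `U ∈ S` contains `pr t t'` and is closed under the defining clauses.
No other goal is used.
-/

namespace Pool.Agent.Helper17.OD.PkMPR

open Set

/-- the clause for one element `x` of the set `U` of pairs -/
def Cl (f U : Set T) (x : T) : Prop :=
  (¬ x.fst.IsOrd ∧ ¬ x.fst = .pr x.fst.fst x.fst.snd ∧ x.snd = x.fst) ∨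
  (x.fst.IsOrd ∧ x.snd.IsOrd ∧ Tr.pr x.fst x.snd ∈ f) ∨
  (x.fst = .pr x.fst.fst x.fst.snd ∧ x.snd = .pr x.snd.fst x.snd.snd ∧
    Tr.pr x.fst.fst x.snd.fst ∈ U ∧ Tr.pr x.fst.snd x.snd.snd ∈ U)

theorem Cl.mono {f U V : Set T} {x : T} (h : Cl f U x) (hUV : U ⊆ V) : Cl f V x := by
  rcases h with h | h | ⟨h1, h2, h3, h4⟩
  · exact Or.inl h
  · exact Or.inr (Or.inl h)
  · exact Or.inr (Or.inr ⟨h1, h2, hUV h3, hUV h4⟩)

theorem sound {f U : Set T} (hU : ∀ x ∈ U, Cl f U x) : ∀ t t' : T, Tr.pr t t' ∈ U → MapR f t t' := by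
  intro t
  induction t with
  | nat n =>
    intro t' h
    rcases hU _ h with ⟨_, _, h3⟩ | ⟨h1, _, _⟩ | ⟨h1, _, _, _⟩
    · exact h3
    · exact absurd h1 (by simp [Tr.fst, Tr.IsOrd])
    · simp [Tr.fst] at h1
  | ord a =>
    intro t' h
    rcases hU _ h with ⟨h1, _, _⟩ | ⟨_, h2, h3⟩ | ⟨h1, _, _, _⟩
    · exact absurd trivial h1
    · exact ⟨h2, h3⟩
    · simp [Tr.fst] at h1
  | pr s r ih1 ih2 =>
    intro t' h
    rcases hU _ h with ⟨_, h2, _⟩ | ⟨h1, _, _⟩ | ⟨_, h2, h3, h4⟩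
    · exact absurd rfl h2
    · exact absurd h1 (by simp [Tr.fst, Tr.IsOrd])
    · exact ⟨t'.fst, t'.snd, h2, ih1 _ h3, ih2 _ h4⟩

variable {k : O} {S S' : Set (Set T)}

theorem single_mem [h : SOM k S S'] {t : T} (ht : t ∈ D (Iio k)) : ({t} : Set T) ∈ S := by
  have := SOM.self (h := h)
  obtain ⟨a, ha, hta⟩ : ∃ a < k, t ∈ D (Iio a) := by
    clear this
    induction t with
    | nat n => exact ⟨0, lt_of_le_of_lt bot_le h.omg, nat_mem _ _⟩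
    | ord b =>
      exact ⟨Order.succ b, h.lim.succ_lt (ord_mem.1 ht), ord_mem.2 (Order.lt_succ b)⟩
    | pr s r ih1 ih2 =>
      obtain ⟨h1, h2⟩ := pr_mem.1 ht
      obtain ⟨a, ha, hs⟩ := ih1 h1
      obtain ⟨b, hb, hr⟩ := ih2 h2
      exact ⟨max a b, max_lt ha hb, pr_mem.2 ⟨D_mono (Iio_subset_Iio (le_max_left _ _)) hs,
        D_mono (Iio_subset_Iio (le_max_right _ _)) hr⟩⟩
  refine SOM.of_SD (S := S) (S' := S) ha (by rintro _ rfl; exact hta) ?_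
  exact (SD.eq ST.id (ST.const ht)).congr fun e _ _ _ => by simp

theorem union_mem [h : SOM k S S'] {X Y : Set T} (hX : X ∈ S) (hY : Y ∈ S) : X ∪ Y ∈ S := by
  have := SOM.self (h := h)
  obtain ⟨a, ha, hXa⟩ := h.bdd X hX
  obtain ⟨b, hb, hYb⟩ := h.bdd Y hY
  refine SOM.of_SD (S := S) (S' := S) (max_lt ha hb) (union_subset
    (hXa.trans (D_mono (Iio_subset_Iio (le_max_left _ _))))
    (hYb.trans (D_mono (Iio_subset_Iio (le_max_right _ _))))) ?_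
  exact ((SD.mem ST.id (SV.par hX)).or (SD.mem ST.id (SV.par hY))).congr fun e _ _ _ => by simp

theorem complete [h : SOM k S S'] {f : Set T} : ∀ t ∈ D (Iio k), ∀ t' ∈ D (Iio k), MapR f t t' →
    ∃ U ∈ S, Tr.pr t t' ∈ U ∧ ∀ x ∈ U, Cl f U x := by
  intro t
  induction t with
  | nat n =>
    intro ht t' ht' hm
    have hm : t' = .nat n := hm
    subst hm
    refine ⟨{Tr.pr (.nat n) (.nat n)}, single_mem (k := k) (S' := S') (pr_mem.2 ⟨ht, ht'⟩), rfl, ?_⟩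
    rintro x rfl
    exact Or.inl ⟨by simp [Tr.fst, Tr.IsOrd], by simp [Tr.fst], rfl⟩
  | ord a =>
    intro ht t' ht' hm
    obtain ⟨h1, h2⟩ := hm
    refine ⟨{Tr.pr (.ord a) t'}, single_mem (k := k) (S' := S') (pr_mem.2 ⟨ht, ht'⟩), rfl, ?_⟩
    rintro x rfl
    exact Or.inr (Or.inl ⟨trivial, h1, h2⟩)
  | pr s r ih1 ih2 =>
    intro ht t' ht' hm
    obtain ⟨s', r', rfl, h1, h2⟩ := hm
    obtain ⟨hs, hr⟩ := pr_mem.1 ht
    obtain ⟨hs', hr'⟩ := pr_mem.1 ht'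
    obtain ⟨U, hU, hsU, hUc⟩ := ih1 hs s' hs' h1
    obtain ⟨V, hV, hrV, hVc⟩ := ih2 hr r' hr' h2
    refine ⟨(U ∪ V) ∪ {Tr.pr (.pr s r) (.pr s' r')}, union_mem (k := k) (S' := S')
      (union_mem (k := k) (S' := S') hU hV) (single_mem (k := k) (S' := S') (pr_mem.2 ⟨ht, ht'⟩)), Or.inr rfl, ?_⟩
    rintro x ((hx | hx) | rfl)
    · exact (hUc x hx).mono (subset_union_left.trans subset_union_left)
    · exact (hVc x hx).mono (subset_union_right.trans subset_union_left)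
    · exact Or.inr (Or.inr ⟨rfl, rfl, Or.inl (Or.inl hsU), Or.inl (Or.inr hrV)⟩)

theorem thm : G_MPR := by
  intro k S S' h
  have := h
  have key : SD k S S' (fun e σ => ∃ U ∈ S, Tr.pr e.fst e.snd ∈ U ∧ ∀ x ∈ D (Iio k), x ∈ U →
      ((¬ x.fst.IsOrd ∧ ¬ x.fst = .pr x.fst.fst x.fst.snd ∧ x.snd = x.fst) ∨
      ((x.fst.IsOrd ∧ x.snd.IsOrd ∧ Tr.pr x.fst x.snd ∈ σ 0) ∨
      (x.fst = .pr x.fst.fst x.fst.snd ∧ (x.snd = .pr x.snd.fst x.snd.snd ∧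
        (Tr.pr x.fst.fst x.snd.fst ∈ U ∧ Tr.pr x.fst.snd x.snd.snd ∈ U)))))) := by
    apply_rules [SD.exT, SD.allT, SD.exS, SD.allS, SD.isOrd, SD.llt, SD.mem, SD.eq, SD.not, SD.and,
      SD.or, SD.iff, SD.imp, ST.id, ST.fst, ST.snd, ST.pr, ST.nat, ST.ordc, SV.var, SV.par]
    all_goals apply_rules [SD.exT, SD.allT, SD.exS, SD.allS, SD.isOrd, SD.llt, SD.mem, SD.eq, SD.not,
      SD.and, SD.or, SD.iff, SD.imp, ST.id, ST.fst, ST.snd, ST.pr, ST.nat, ST.ordc, SV.var, SV.par]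
    all_goals exact SV.var _
  refine key.congr fun e he σ hσ => ?_
  constructor
  · rintro ⟨U, hU, h1, h2⟩
    obtain ⟨a, ha, hUa⟩ := h.bdd U hU
    exact sound (fun x hx => h2 x (D_mono (Iio_subset_Iio ha.le) (hUa hx)) hx) _ _ h1
  · intro hm
    obtain ⟨U, hU, h1, h2⟩ := complete (S := S) (S' := S') _ (fst_mem he) _ (snd_mem he) hm
    exact ⟨U, hU, h1, fun x _ hx => h2 x hx⟩

end Pool.Agent.Helper17.OD.PkMPR
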