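import Pool.Agent.Helper17.OD.GoalsGM

/-!
# RCD: real versions of (M5), (M6) for the inaccessible cardinal `univ`

For `d < κ₀` let `c` be the successor cardinal of `max |d| ℵ₀`: it is regular, uncountable and
below `κ₀`, and `d < c.ord`. So `b = η = c.ord` works (`G_CDK` for `c`, `G_CAD` for `c`).
-/

namespace Pool.Agent.Helper17.OD.PkRCD

open Set
open Cardinal hiding univ

theorem aux {d : O} (hd : d < (Cardinal.univ.{0, 1}).ord) : ∃ c : Cardinal.{1}, c.IsRegular ∧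
    ℵ₀ < c ∧ d < c.ord ∧ c < Cardinal.univ.{0, 1} := by
  have hin : IsInaccessible Cardinal.univ.{0, 1} := IsInaccessible.univ
  have hu : ℵ₀ < Cardinal.univ.{0, 1} := hin.1
  have h1 : max d.card ℵ₀ < Cardinal.univ.{0, 1} := max_lt (lt_ord.1 hd) hu
  refine ⟨Order.succ (max d.card ℵ₀), isRegular_succ (le_max_right _ _),
    (le_max_right _ _).trans_lt (Order.lt_succ _), lt_ord.2 ?_, hin.isSuccLimit.succ_lt h1⟩
  exact (le_max_left _ _).trans_lt (Order.lt_succ _)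

theorem thm (hCDK : G_CDK) (hCAD : G_CAD) : G_RCD := by
  have hin : IsInaccessible Cardinal.univ.{0, 1} := IsInaccessible.univ
  have hu : ℵ₀ < Cardinal.univ.{0, 1} := hin.1
  refine ⟨fun d hd => ?_, fun d hd => ?_, hin.isRegular, hu, isRegular_aleph_one, ?_⟩
  · obtain ⟨c, h1, h2, h3, h4⟩ := aux hd
    exact ⟨c.ord, ord_lt_ord.2 h4, fun t ht => hCDK c h1 h2 d h3 t ht⟩
  · obtain ⟨c, h1, h2, h3, h4⟩ := aux hd
    obtain ⟨g1, g2, _⟩ := hCAD c h1 h2
    exact ⟨c.ord, h3, ord_lt_ord.2 h4, g2, g1⟩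
  · rw [← succ_aleph0]
    exact hin.isSuccLimit.succ_lt hu

end Pool.Agent.Helper17.OD.PkRCD
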