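import Pool.Agent.Helper17.OD.GoalsFP

/-!
# SPL: splitting sequences of type `w` in `M`

Only `G_ENU` is used.
-/

namespace Pool.Agent.Helper17.OD.PkSPL

open Set

variable {k : O} {S S' : Set (Set T)}

theorem Dmem [h : SOM k S S'] {d : O} (hd : d < k) : D (Iio d) ∈ S' := by
  have h1 := SOM.sep (k := k) (S := S) (S' := S') (P := fun _ => True) SD.const hd
  simpa using h1

theorem le_of_mono {b : O} {f : O → O} (hf : StrictMonoOn f (Iio b)) : ∀ x < b, x ≤ f x := by
  intro x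
  induction x using WellFoundedLT.induction with
  | ind x ih =>
    intro hx
    by_contra hlt
    rw [not_le] at hlt
    exact absurd (ih (f x) hlt (hlt.trans hx)) (not_le.2 (hf (hlt.trans hx) hx hlt))

/-- extension of a function on ordinals to trees -/
noncomputable def exf (f : O → O) : T → T
  | .ord a => .ord (f a)
  | _ => .ord 0

theorem exf_ord (f : O → O) (x : T) : (exf f x).IsOrd := by
  cases x <;> trivial

theorem one_lt [h : SOM k S S'] : (1 : O) < k := Ordinal.one_lt_omega0.trans h.omg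

theorem gr_exf_mem [h : SOM k S S'] {b : O} (hb : b < k) {f : O → O} (hf : gro b f ∈ S') :
    gr (D (Iio b)) (exf f) ∈ S' := by
  obtain ⟨d, hd, hfd⟩ := h.bdd _ (h.sub hf)
  have hD := Dmem (S := S) (S' := S') hb
  have h0 : (0 : O) < k := lt_trans zero_lt_one (one_lt (S := S) (S' := S'))
  refine SOM.of_SD (S := S) (S' := S') (max_lt (max_lt hb hd) (one_lt (S := S) (S' := S'))) ?_ ?_
  · rintro _ ⟨x, hx, rfl⟩
    refine pr_mem.2 ⟨D_mono (Iio_subset_Iio ((le_max_left _ _).trans (le_max_left _ _))) hx, ?_⟩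
    have h01 : (0 : O) < max (max b d) 1 := lt_of_lt_of_le zero_lt_one (le_max_right _ _)
    cases x with
    | nat n => exact ord_mem.2 h01
    | pr s t => exact ord_mem.2 h01
    | ord a =>
      have h1 : Tr.pr (.ord a) (.ord (f a)) ∈ gro b f := ⟨a, ord_mem.1 hx, rfl⟩
      exact D_mono (Iio_subset_Iio ((le_max_right _ _).trans (le_max_left _ _)))
        (pr_mem.1 (hfd h1)).2
  · have key : SD k S S' (fun e _ => e = .pr e.fst e.snd ∧ e.fst ∈ D (Iio b) ∧
        ((e.fst.IsOrd ∧ e ∈ gro b f) ∨ (¬ e.fst.IsOrd ∧ e.snd = .ord 0))) := by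
      apply_rules [SD.exT, SD.allT, SD.exS, SD.allS, SD.isOrd, SD.llt, SD.mem, SD.eq, SD.not, SD.and,
        SD.or, SD.iff, SD.imp, ST.id, ST.fst, ST.snd, ST.pr, ST.nat, ST.ordc, SV.var, SV.par]
    refine key.congr fun e he _ _ => ?_
    constructor
    · rintro ⟨h1, h2, (⟨h3, x, hx, h4⟩ | ⟨h3, h4⟩)⟩
      · exact ⟨.ord x, ord_mem.2 hx, h4⟩
      · refine ⟨e.fst, h2, ?_⟩
        have h5 : exf f e.fst = .ord 0 := by
          cases h6 : e.fst with
          | nat n => rfl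
          | pr s t => rfl
          | ord a => rw [h6] at h3; exact absurd trivial h3
        rw [h5, ← h4]
        exact h1
    · rintro ⟨x, hx, rfl⟩
      refine ⟨rfl, hx, ?_⟩
      cases x with
      | nat n => exact Or.inr ⟨fun h => h, rfl⟩
      | pr s t => exact Or.inr ⟨fun h => h, rfl⟩
      | ord a => exact Or.inl ⟨trivial, a, ord_mem.1 hx, rfl⟩

/-- increasing enumeration of an unbounded subset of `w` -/
theorem enum (F : FD) (hENU : G_ENU) {Y : Set O} (hY : {t | ∃ x ∈ Y, t = Tr.ord x} ∈ F.M)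
    (hw : ∀ x ∈ Y, x < F.w) (hu : ∀ a < F.w, ∃ x ∈ Y, a ≤ x) :
    ∃ g : O → O, StrictMonoOn g (Iio F.w) ∧ (∀ x < F.w, g x ∈ Y) ∧ gro F.w g ∈ F.M := by
  have hsom : SOM F.γ F.M F.M := F.g.m1
  obtain ⟨b, f, hb, hf, hfY, hfM⟩ := hENU F.γ F.M F.M hsom _ hY (by
    rintro _ ⟨x, _, rfl⟩
    trivial)
  have hfY' : ∀ a < b, f a ∈ Y := fun a ha => by
    obtain ⟨x, hx, hxe⟩ := (hfY (.ord (f a))).2 ⟨a, ha, rfl⟩
    injection hxe with h1
    rw [h1]
    exact hx
  have h1 : b ≤ F.w := by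
    by_contra hlt
    rw [not_le] at hlt
    exact absurd (le_of_mono hf _ hlt) (not_le.2 (hw _ (hfY' _ hlt)))
  have h2 : F.w ≤ b := by
    by_contra hlt
    rw [not_le] at hlt
    obtain ⟨b', hb', hbb⟩ := F.g.m4w b hlt (exf f) (fun x hx => ⟨exf_ord f x, by
      cases x with
      | nat n => exact ord_mem.2 (lt_trans Ordinal.omega0_pos F.g.omw)
      | pr s t => exact ord_mem.2 (lt_trans Ordinal.omega0_pos F.g.omw)
      | ord a => exact ord_mem.2 (hw _ (hfY' _ (ord_mem.1 hx)))⟩)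
      (gr_exf_mem (S := F.M) (S' := F.M) hb hfM)
    obtain ⟨x, hx, hle⟩ := hu b' hb'
    obtain ⟨a, ha, hae⟩ := (hfY (.ord x)).1 ⟨x, hx, rfl⟩
    have h3 : f a < b' := ord_mem.1 (hbb (.ord a) (ord_mem.2 ha))
    injection hae with h4
    rw [← h4] at h3
    exact absurd hle (not_le.2 h3)
  have h3 : b = F.w := le_antisymm h1 h2
  subst h3
  exact ⟨f, hf, hfY', hfM⟩

theorem pigeon (F : FD) {h : O → O} (hh : gro F.w h ∈ F.M) {d : O} (hd : d < F.w)
    (hb : ∀ x < F.w, h x < d) : ∃ c, ∀ a < F.w, ∃ x, a ≤ x ∧ x < F.w ∧ h x = c := by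
  have hsom : SOM F.γ F.M F.M := F.g.m1
  have hwγ : F.w < F.γ := F.g.wk.trans F.g.kg
  by_contra hcon
  push Not at hcon
  let B : O → O := fun c => sInf {a | ∀ x < F.w, h x = c → x < a}
  have hne : ∀ c, ({a | ∀ x < F.w, h x = c → x < a} : Set O).Nonempty := fun c =>
    ⟨F.w, fun x hx _ => hx⟩
  have hB1 : ∀ c, ∀ x < F.w, h x = c → x < B c := fun c => csInf_mem (hne c)
  have hB2 : ∀ c a, (∀ x < F.w, h x = c → x < a) → B c ≤ a := fun c a ha => csInf_le' ha
  have hBw : ∀ c, B c < F.w := fun c => by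
    obtain ⟨a, ha, hac⟩ := hcon c
    refine lt_of_le_of_lt (hB2 c a fun x hx hxc => ?_) ha
    by_contra hlt
    exact hac x (not_lt.1 hlt) hx hxc
  have hD := Dmem (S := F.M) (S' := F.M) (hd.trans hwγ)
  have hBM : gro d B ∈ F.M := by
    refine SOM.of_SD (S := F.M) (S' := F.M) hwγ ?_ ?_
    · rintro _ ⟨x, hx, rfl⟩
      exact pr_mem.2 ⟨ord_mem.2 (hx.trans hd), ord_mem.2 (hBw x)⟩
    · have key : SD F.γ F.M F.M (fun e _ => e = .pr e.fst e.snd ∧ e.fst.IsOrd ∧ e.fst ∈ D (Iio d) ∧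
          e.snd.IsOrd ∧ (∀ x ∈ D (Iio F.γ), Tr.pr x e.fst ∈ gro F.w h → x.llt e.snd) ∧
          (∀ y ∈ D (Iio F.γ), (y.IsOrd ∧ ∀ x ∈ D (Iio F.γ), Tr.pr x e.fst ∈ gro F.w h →
            x.llt y) → ¬ y.llt e.snd)) := by
        apply_rules [SD.exT, SD.allT, SD.exS, SD.allS, SD.isOrd, SD.llt, SD.mem, SD.eq, SD.not,
          SD.and, SD.or, SD.iff, SD.imp, ST.id, ST.fst, ST.snd, ST.pr, ST.nat, ST.ordc, SV.var,
          SV.par]
        all_goals apply_rules [SD.exT, SD.allT, SD.exS, SD.allS, SD.isOrd, SD.llt, SD.mem, SD.eq,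
          SD.not, SD.and, SD.or, SD.iff, SD.imp, ST.id, ST.fst, ST.snd, ST.pr, ST.nat, ST.ordc,
          SV.var, SV.par]
      refine key.congr fun e he _ _ => ?_
      have hx1 : ∀ c y : O, (∀ x ∈ D (Iio F.γ), Tr.pr x (.ord c) ∈ gro F.w h →
          x.llt (.ord y)) ↔ ∀ x < F.w, h x = c → x < y := by
        intro c y
        constructor
        · intro h1 x hx hxc
          exact h1 (.ord x) (ord_mem.2 (hx.trans hwγ)) ⟨x, hx, by rw [hxc]⟩
        · rintro h1 x hx ⟨x', hx', hxe⟩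
          injection hxe with h2 h3
          injection h3 with h4
          rw [h2]
          exact h1 x' hx' h4.symm
      constructor
      · rintro ⟨h1, h2, h3, h4, h5, h6⟩
        cases hef : e.fst with
        | nat n => rw [hef] at h2; exact absurd h2 (by simp [Tr.IsOrd])
        | pr s t => rw [hef] at h2; exact absurd h2 (by simp [Tr.IsOrd])
        | ord c =>
          cases hes : e.snd with
          | nat n => rw [hes] at h4; exact absurd h4 (by simp [Tr.IsOrd])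
          | pr s t => rw [hes] at h4; exact absurd h4 (by simp [Tr.IsOrd])
          | ord y =>
            rw [hef] at h3
            rw [hef, hes] at h5 h6
            rw [hx1] at h5
            have hy : y < F.γ := by
              have := snd_mem he
              rw [hes] at this
              exact ord_mem.1 this
            refine ⟨c, ord_mem.1 h3, ?_⟩
            rw [h1, hef, hes]
            have h7 : y = B c := by
              refine le_antisymm ?_ (hB2 c y h5)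
              by_contra hlt
              rw [not_le] at hlt
              exact h6 (.ord (B c)) (ord_mem.2 (hlt.trans hy)) ⟨trivial, (hx1 c (B c)).2 (hB1 c)⟩ hlt
            rw [h7]
      · rintro ⟨c, hc, rfl⟩
        refine ⟨rfl, trivial, ord_mem.2 hc, trivial, (hx1 c (B c)).2 (hB1 c), ?_⟩
        rintro y hy ⟨h1, h2⟩ h3
        cases y with
        | nat n => exact absurd h1 (by simp [Tr.IsOrd])
        | pr s t => exact absurd h1 (by simp [Tr.IsOrd])
        | ord y' => exact absurd (hB2 c y' ((hx1 c y').1 h2)) (not_le.2 h3)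
  obtain ⟨b, hbw, hbb⟩ := F.g.m4w d hd (exf B) (fun x hx => ⟨exf_ord B x, by
      cases x with
      | nat n => exact ord_mem.2 (lt_trans Ordinal.omega0_pos F.g.omw)
      | pr s t => exact ord_mem.2 (lt_trans Ordinal.omega0_pos F.g.omw)
      | ord a => exact ord_mem.2 (hBw a)⟩)
      (gr_exf_mem (S := F.M) (S' := F.M) (hd.trans hwγ) hBM)
  have h1 : B (h b) < b := ord_mem.1 (hbb (.ord (h b)) (ord_mem.2 (hb b hbw)))
  exact absurd (hB1 (h b) b hbw rfl) (not_lt.2 h1.le)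

theorem lt_gam (F : FD) {h : O → O} (hh : gro F.w h ∈ F.M) {x : O} (hx : x < F.w) :
    h x < F.γ := by
  have hsom : SOM F.γ F.M F.M := F.g.m1
  obtain ⟨d, hd, hfd⟩ := hsom.bdd _ hh
  have h1 : Tr.pr (.ord x) (.ord (h x)) ∈ D (Iio d) := hfd ⟨x, hx, rfl⟩
  exact lt_trans (ord_mem.1 (pr_mem.1 h1).2) hd

theorem cst (F : FD) (hENU : G_ENU) {h : O → O} (hh : gro F.w h ∈ F.M) {c : O}
    (hc : ∀ a < F.w, ∃ x, a ≤ x ∧ x < F.w ∧ h x = c) : ∃ g : O → O, StrictMonoOn g (Iio F.w) ∧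
    (∀ x < F.w, g x < F.w ∧ h (g x) = c) ∧ gro F.w g ∈ F.M := by
  have hsom : SOM F.γ F.M F.M := F.g.m1
  have hwγ : F.w < F.γ := F.g.wk.trans F.g.kg
  have hcγ : c < F.γ := by
    obtain ⟨x, _, hx, rfl⟩ := hc 0 (lt_trans Ordinal.omega0_pos F.g.omw)
    exact lt_gam F hh hx
  obtain ⟨g, h1, h2, h3⟩ := enum F hENU (Y := {x | x < F.w ∧ h x = c}) (by
    refine SOM.of_SD (S := F.M) (S' := F.M) hwγ ?_ ?_
    · rintro _ ⟨x, hx, rfl⟩
      exact ord_mem.2 hx.1
    · have key : SD F.γ F.M F.M (fun e _ => Tr.pr e (.ord c) ∈ gro F.w h) := by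
        apply_rules [SD.mem, ST.id, ST.pr, ST.ordc, SV.par]
      refine key.congr fun e he _ _ => ?_
      constructor
      · rintro ⟨x, hx, hxe⟩
        injection hxe with h2 h3
        injection h3 with h4
        exact ⟨x, ⟨hx, h4.symm⟩, h2⟩
      · rintro ⟨x, ⟨hx, hxc⟩, rfl⟩
        exact ⟨x, hx, by rw [hxc]⟩) (fun x hx => hx.1) (fun a ha => by
    obtain ⟨x, h1, h2, h3⟩ := hc a ha
    exact ⟨x, ⟨h2, h3⟩, h1⟩)
  exact ⟨g, h1, h2, h3⟩

theorem comp_mem (F : FD) {g h : O → O} (hg : gro F.w g ∈ F.M) (hh : gro F.w h ∈ F.M)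
    (hgw : ∀ x < F.w, g x < F.w) : gro F.w (fun x => h (g x)) ∈ F.M := by
  have hsom : SOM F.γ F.M F.M := F.g.m1
  have hwγ : F.w < F.γ := F.g.wk.trans F.g.kg
  obtain ⟨d, hd, hfd⟩ := hsom.bdd _ hh
  refine SOM.of_SD (S := F.M) (S' := F.M) (max_lt hwγ hd) ?_ ?_
  · rintro _ ⟨x, hx, rfl⟩
    have h1 : Tr.pr (.ord (g x)) (.ord (h (g x))) ∈ D (Iio d) := hfd ⟨g x, hgw x hx, rfl⟩
    exact pr_mem.2 ⟨ord_mem.2 (lt_of_lt_of_le hx (le_max_left _ _)),
      D_mono (Iio_subset_Iio (le_max_right _ _)) (pr_mem.1 h1).2⟩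
  · have key : SD F.γ F.M F.M (fun e _ => e = .pr e.fst e.snd ∧ ∃ u ∈ D (Iio F.γ),
        Tr.pr e.fst u ∈ gro F.w g ∧ Tr.pr u e.snd ∈ gro F.w h) := by
      apply_rules [SD.exT, SD.allT, SD.exS, SD.allS, SD.isOrd, SD.llt, SD.mem, SD.eq, SD.not, SD.and,
        SD.or, SD.iff, SD.imp, ST.id, ST.fst, ST.snd, ST.pr, ST.nat, ST.ordc, SV.var, SV.par]
    refine key.congr fun e he _ _ => ?_
    constructor
    · rintro ⟨h1, u, hu, ⟨x, hx, hxe⟩, ⟨y, hy, hye⟩⟩
      injection hxe with h2 h3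
      injection hye with h4 h5
      rw [h3] at h4
      injection h4 with h6
      refine ⟨x, hx, ?_⟩
      rw [h1, h2, h5, ← h6]
    · rintro ⟨x, hx, rfl⟩
      exact ⟨rfl, .ord (g x), ord_mem.2 ((hgw x hx).trans hwγ), ⟨x, hx, rfl⟩,
        ⟨g x, hgw x hx, rfl⟩⟩

theorem thm (hENU : G_ENU) : G_SPL := by
  intro F h hh
  have hsom : SOM F.γ F.M F.M := F.g.m1
  have hwγ : F.w < F.γ := F.g.wk.trans F.g.kg
  have hD := Dmem (S := F.M) (S' := F.M) hwγ
  constructor
  · rintro ⟨d, hd, hb⟩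
    obtain ⟨c, hc⟩ := pigeon F hh hd hb
    obtain ⟨g, h1, h2, h3⟩ := cst F hENU hh hc
    exact ⟨g, c, h1, h2, h3⟩
  · intro hmono
    by_cases hc : ∃ c, ∀ a < F.w, ∃ x, a ≤ x ∧ x < F.w ∧ h x = c
    · obtain ⟨c, hc⟩ := hc
      obtain ⟨g, h1, h2, h3⟩ := cst F hENU hh hc
      exact ⟨g, h1, fun x hx => (h2 x hx).1, h3, comp_mem F h3 hh fun x hx => (h2 x hx).1,
        Or.inl ⟨c, fun x hx => (h2 x hx).2⟩⟩
    · push Not at hc
      obtain ⟨g, h1, h2, h3⟩ := enum F hENU (Y := {x | x < F.w ∧ ∀ y < x, h y < h x}) (by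
        refine SOM.of_SD (S := F.M) (S' := F.M) hwγ ?_ ?_
        · rintro _ ⟨x, hx, rfl⟩
          exact ord_mem.2 hx.1
        · have key : SD F.γ F.M F.M (fun e _ => e.IsOrd ∧ e ∈ D (Iio F.w) ∧
              ∀ y ∈ D (Iio F.γ), y.IsOrd → y.llt e → ∀ u ∈ D (Iio F.γ), ∀ v ∈ D (Iio F.γ),
                Tr.pr y u ∈ gro F.w h → Tr.pr e v ∈ gro F.w h → u.llt v) := by
            apply_rules [SD.exT, SD.allT, SD.exS, SD.allS, SD.isOrd, SD.llt, SD.mem, SD.eq, SD.not,
              SD.and, SD.or, SD.iff, SD.imp, ST.id, ST.fst, ST.snd, ST.pr, ST.nat, ST.ordc, SV.var,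
              SV.par]
          refine key.congr fun e he _ _ => ?_
          constructor
          · rintro ⟨h1, h2, h3⟩
            cases e with
            | nat n => exact absurd h1 (by simp [Tr.IsOrd])
            | pr s t => exact absurd h1 (by simp [Tr.IsOrd])
            | ord x =>
              have hx : x < F.w := ord_mem.1 h2
              refine ⟨x, ⟨hx, fun y hy => ?_⟩, rfl⟩
              have hyw : y < F.w := hy.trans hx
              exact h3 (.ord y) (ord_mem.2 (hyw.trans hwγ)) trivial hy (.ord (h y))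
                (ord_mem.2 (lt_gam F hh hyw)) (.ord (h x)) (ord_mem.2 (lt_gam F hh hx))
                ⟨y, hyw, rfl⟩ ⟨x, hx, rfl⟩
          · rintro ⟨x, ⟨hx, hxy⟩, rfl⟩
            refine ⟨trivial, ord_mem.2 hx, ?_⟩
            rintro y hy h1 h2 u hu v hv ⟨y', hy', hye⟩ ⟨x', hx', hxe⟩
            injection hye with h3 h4
            injection hxe with h5 h6
            injection h5 with h7
            rw [h3] at h2
            rw [h4, h6, ← h7]
            exact hxy y' h2) (fun x hx => hx.1) (fun a ha => by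
        obtain ⟨a', ha', hac⟩ := hc (h a)
        have hmx : max a a' < F.w := max_lt ha ha'
        have hlt : h a < h (max a a') := lt_of_le_of_ne (hmono ha hmx (le_max_left _ _))
          (Ne.symm (hac _ (le_max_right _ _) hmx))
        let x := sInf {x | x < F.w ∧ h a < h x}
        have hxm : x ∈ {x | x < F.w ∧ h a < h x} := csInf_mem ⟨max a a', hmx, hlt⟩
        have hx : x < F.w ∧ h a < h x := hxm
        refine ⟨x, ⟨hx.1, fun y hy => ?_⟩, ?_⟩
        · refine lt_of_le_of_lt ?_ hx.2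
          by_contra hlt2
          rw [not_le] at hlt2
          exact absurd (csInf_le' (show y ∈ {x | x < F.w ∧ h a < h x} from
            ⟨hy.trans hx.1, hlt2⟩)) (not_le.2 hy)
        · by_contra hlt2
          rw [not_le] at hlt2
          exact absurd (hmono hx.1 ha hlt2.le) (not_le.2 hx.2))
      have h4 : ∀ x < F.w, g x < F.w := fun x hx => (h2 x hx).1
      exact ⟨g, h1, h4, h3, comp_mem F h3 hh h4, Or.inr fun x hx y hy hxy =>
        (h2 y hy).2 _ (h1 hx hy hxy)⟩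

end Pool.Agent.Helper17.OD.PkSPL
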