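import Pool.Agent.Helper17.OD.GoalsWM

/-!
# WLV: the levels of `W` are elements of `W`

Used: `G_WRK`.
-/

namespace Pool.Agent.Helper17.OD.PkWLV

open Set

theorem thm (hWRK : G_WRK) : G_WLV := by
  intro W Q hz hQ
  have hrk : ∀ {Q' : Set Z}, PS W Q' → ∀ {f : (ℕ → Z) → Z}, DT W Q' f →
      DT W Q' (fun v => ((f v).rank).toZFSet) := by
    intro Q' hQ' f hf
    obtain ⟨h1, h2, -⟩ := hWRK W Q' hz hQ'
    exact DT.app1 (g := fun x => (x.rank).toZFSet) h1 h2 hf
  constructor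
  · intro a
    induction a using WellFoundedLT.induction with
    | ind a ih =>
      intro ha
      have hps : PS W W := ZM.psW
      have hR : DP W W (fun v => ∀ z ∈ W, (z ∈ v 1 ↔ ∀ u ∈ z, (u.rank).toZFSet ∈ v 0)) := by
        have hrk' : ∀ {f : (ℕ → Z) → Z}, DT W W f → DT W W (fun v => ((f v).rank).toZFSet) :=
          fun hf => hrk hps hf
        apply_rules (maxDepth := 500) [DP.all, DP.iff, DP.ball, DP.mem, DT.var, hrk']
      have hc : ∀ x ∈ a.toZFSet, ∃ y ∈ W, ∀ z, z ∈ y ↔ z ∈ W ∧ ∀ u ∈ z, (u.rank).toZFSet ∈ x := by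
        intro x hx
        rw [Ordinal.mem_toZFSet_iff] at hx
        obtain ⟨c, hca, rfl⟩ := hx
        obtain ⟨b, hb, hbc⟩ := ih c hca (ZM.ord_le ha hca.le)
        obtain ⟨y, hy, hyb⟩ := hz.power b hb
        refine ⟨y, hy, fun z => ?_⟩
        rw [hyb]
        refine and_congr_right fun hzW => ?_
        constructor
        · intro hzb u hu
          exact Ordinal.toZFSet_mem_toZFSet_iff.2 ((hbc u).1 (hzb hu)).2
        · intro h u hu
          exact (hbc u).2 ⟨hz.trans z hzW u hu, Ordinal.toZFSet_mem_toZFSet_iff.1 (h u hu)⟩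
      obtain ⟨B, hB, hBy⟩ := hz.repl
        (fun x y => ∀ z ∈ W, (z ∈ y ↔ ∀ u ∈ z, (u.rank).toZFSet ∈ x)) hR a.toZFSet ha (by
          intro x hx
          obtain ⟨y, hy, hyz⟩ := hc x hx
          refine ⟨y, hy, fun z hzW => ?_, fun y' hy' h' => ?_⟩
          · rw [hyz]
            exact ⟨fun h => h.2, fun h => ⟨hzW, h⟩⟩
          · rw [ext_tr hy' hy]
            intro z hzW
            rw [h' z hzW, hyz]
            exact ⟨fun h => ⟨hzW, h⟩, fun h => h.2⟩)
      refine ⟨ZFSet.sUnion B, hz.union B hB, fun z => ?_⟩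
      rw [ZFSet.mem_sUnion]
      constructor
      · rintro ⟨y, hyB, hzy⟩
        obtain ⟨hyW, x, hx, hxy⟩ := (hBy y).1 hyB
        have hzW : z ∈ W := hz.trans y hyW z hzy
        rw [Ordinal.mem_toZFSet_iff] at hx
        obtain ⟨c, hca, rfl⟩ := hx
        refine ⟨hzW, lt_of_le_of_lt ?_ hca⟩
        rw [ZFSet.rank_le_iff]
        intro u hu
        exact Ordinal.toZFSet_mem_toZFSet_iff.1 ((hxy z hzW).1 hzy u hu)
      · rintro ⟨hzW, hza⟩
        have hx : (z.rank).toZFSet ∈ a.toZFSet := Ordinal.toZFSet_mem_toZFSet_iff.2 hza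
        obtain ⟨y, hy, hyz⟩ := hc _ hx
        refine ⟨y, (hBy y).2 ⟨hy, _, hx, fun z' hz' => ?_⟩, (hyz z).2 ⟨hzW, fun u hu => ?_⟩⟩
        · rw [hyz]
          exact ⟨fun h => h.2, fun h => ⟨hz', h⟩⟩
        · exact Ordinal.toZFSet_mem_toZFSet_iff.2 (ZFSet.rank_lt_of_mem hu)
  · have h1 : DP W Q (fun v => (v 1).IsOrdinal ∧ ∀ x ∈ W, (x ∈ v 0 ↔ (x.rank).toZFSet ∈ v 1)) := by
      have hrk' : ∀ {f : (ℕ → Z) → Z}, DT W Q f → DT W Q (fun v => ((f v).rank).toZFSet) :=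
        fun hf => hrk hQ hf
      apply_rules (maxDepth := 500) [DP.and, DP.isord, DP.all, DP.iff, DP.ball, DP.mem, DT.var, hrk']
    refine h1.congr fun v hv => ?_
    constructor
    · rintro ⟨h2, h3⟩
      have h4 := h2.toZFSet_rank_eq
      refine ⟨(v 1).rank, h4.symm, fun x => ?_⟩
      constructor
      · intro hx
        have hxW := hz.trans _ (hv 0) x hx
        have h5 := (h3 x hxW).1 hx
        rw [← h4] at h5
        exact ⟨hxW, Ordinal.toZFSet_mem_toZFSet_iff.1 h5⟩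
      · rintro ⟨hxW, hx⟩
        rw [h3 x hxW, ← h4]
        exact Ordinal.toZFSet_mem_toZFSet_iff.2 hx
    · rintro ⟨a, ha, h2⟩
      refine ⟨by rw [ha]; exact ZFSet.isOrdinal_toZFSet _, fun x hx => ?_⟩
      rw [h2, ha, Ordinal.toZFSet_mem_toZFSet_iff]
      exact ⟨fun h => h.2, fun h => ⟨hx, h⟩⟩

end Pool.Agent.Helper17.OD.PkWLV
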